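import Pool.Agent.H90.EH.Targets

set_option autoImplicit false

namespace Pool.Agent.H69.EH

open Pool.Agent.H90.EH Polynomial

/-- CYD (the hypothesis is not needed) -/
theorem pf_CYD0 : T_CYD := by
  classical
  intro ι _ _ N t e D ht hN hch hD
  set A : Matrix ι ι ℚ := N.map (Int.castRingHom ℚ) with hA
  have hLm : Lm N = Matrix.toLin' A := rfl
  have hpow : (Lm N) ^ t = 1 := by
    rw [hLm, ← Matrix.toLin'_pow]
    have : A ^ t = 1 := by
      have h := congrArg (fun M => (Int.castRingHom ℚ).mapMatrix M) hN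
      simp only [map_pow, map_one] at h
      exact h
    rw [this, Matrix.toLin'_one]; rfl
  have hsq : Squarefree (X ^ t - 1 : ℚ[X]) :=
    (X_pow_sub_one_separable_iff.2 (by exact_mod_cast (by omega : t ≠ 0))).squarefree
  have hss : Module.End.IsSemisimple (Lm N) := by
    refine Module.End.isSemisimple_of_squarefree_aeval_eq_zero hsq ?_
    rw [map_sub, map_pow, aeval_X, map_one]
    rw [hpow, sub_self]
  have heig : Module.End.maxGenEigenspace (Lm N) (1 : ℚ) = Module.End.eigenspace (Lm N) 1 :=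
    hss.isFinitelySemisimple.maxGenEigenspace_eq_eigenspace 1
  have hker : LinearMap.ker (Lm N - 1) = Module.End.eigenspace (Lm N) (1 : ℚ) := by
    rw [Module.End.eigenspace_def, one_smul]
  rw [hker, ← heig, LinearMap.finrank_maxGenEigenspace_eq]
  have hcp : (Lm N).charpoly = (X - C 1) ^ e * D.map (Int.castRingHom ℚ) := by
    rw [hLm, Matrix.charpoly_toLin', hA, Matrix.charpoly_map, hch]
    simp
  rw [hcp]
  have hD' : (D.map (Int.castRingHom ℚ)).eval 1 ≠ 0 := by
    rw [show (1:ℚ) = Int.castRingHom ℚ 1 by simp, eval_map_apply]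
    simpa using hD
  have hD0 : D.map (Int.castRingHom ℚ) ≠ 0 := by
    intro h; rw [h] at hD'; simp at hD'
  rw [rootMultiplicity_mul (mul_ne_zero (pow_ne_zero _ (X_sub_C_ne_zero 1)) hD0),
    rootMultiplicity_X_sub_C_pow, rootMultiplicity_eq_zero hD', add_zero]

theorem pf_CYD (_ : T_CPW) : T_CYD := pf_CYD0

end Pool.Agent.H69.EH
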